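import Pool.Agent.PV3.Stmts

/-!
# Squad PV3: lower bound for the outward first variation (common lemma of DER and OUT)
-/

set_option autoImplicit false

open MeasureTheory Metric Set Filter Topology Pointwise

namespace PV3.H10

open PV PV3

variable {n : ℕ}

/-- The part of the face which stays away from the other faces. -/
def Fe (U : Finset (E n)) (c : E n → ℝ) (w : E n) (ε : ℝ) : Set (E n) :=
  {x | x ∈ Pl U c ∧ inner ℝ x w = c w ∧ ∀ w' ∈ U, w' ≠ w → inner ℝ x w' ≤ c w' - ε}

theorem cont_inner (w : E n) : Continuous fun x : E n => inner ℝ x w :=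
  continuous_id.inner continuous_const

theorem pl_closed (U : Finset (E n)) (c : E n → ℝ) : IsClosed (Pl U c) := by
  have : Pl U c = ⋂ w ∈ U, {x | inner ℝ x w ≤ c w} := by
    ext x
    simp [Pl]
  rw [this]
  exact isClosed_biInter fun w _ => isClosed_le (cont_inner w) continuous_const

theorem pl_compact {U : Finset (E n)} (hB : Bd U) (c : E n → ℝ) : IsCompact (Pl U c) :=
  Metric.isCompact_of_isClosed_isBounded (pl_closed U c) (hB c)

theorem fe_compact {U : Finset (E n)} (hB : Bd U) (c : E n → ℝ) (w : E n) (ε : ℝ) :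
    IsCompact (Fe U c w ε) := by
  apply (pl_compact hB c).of_isClosed_subset _ (fun x hx => hx.1)
  have : Fe U c w ε = Pl U c ∩ ({x | inner ℝ x w = c w} ∩
      ⋂ w' ∈ U, ⋂ _ : w' ≠ w, {x | inner ℝ x w' ≤ c w' - ε}) := by
    ext x
    simp [Fe]
    tauto
  rw [this]
  exact (pl_closed U c).inter ((isClosed_eq (cont_inner w) continuous_const).inter
    (isClosed_biInter fun w' _ => isClosed_iInter fun _ =>
      isClosed_le (cont_inner w') continuous_const))

theorem pr_compact (w : E n) {S : Set (E n)} (hS : IsCompact S) : IsCompact (Pr w S) := by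
  have : Pr w S = (fun p : E n × ℝ => proj w p.1 + p.2 • w) '' (S ×ˢ Icc (0:ℝ) 1) := by
    ext y
    constructor
    · rintro ⟨x, hx, s, hs, rfl⟩
      exact ⟨(x, s), ⟨hx, hs⟩, rfl⟩
    · rintro ⟨⟨x, s⟩, ⟨hx, hs⟩, rfl⟩
      exact ⟨x, hx, s, hs, rfl⟩
  rw [this]
  apply (hS.prod isCompact_Icc).image
  unfold proj
  fun_prop

theorem pr_mono (w : E n) {S S' : Set (E n)} (h : S ⊆ S') : Pr w S ⊆ Pr w S' := by
  rintro y ⟨x, hx, s, hs, rfl⟩
  exact ⟨x, h hx, s, hs, rfl⟩

theorem hyp_null (w : E n) (hw : ‖w‖ = 1) (a : ℝ) :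
    volume {y : E n | inner ℝ y w = a} = 0 := by
  have hww : inner ℝ w w = (1 : ℝ) := by
    rw [real_inner_self_eq_norm_sq, hw, one_pow]
  have h : {y : E n | inner ℝ y w = a} =
      (fun y => y + (-(a • w))) ⁻¹' (((ℝ ∙ w)ᗮ : Submodule ℝ (E n)) : Set (E n)) := by
    ext y
    rw [mem_preimage, SetLike.mem_coe, Submodule.mem_orthogonal_singleton_iff_inner_left,
      inner_add_left, inner_neg_left, inner_smul_left, hww]
    simp only [mem_ofPred_eq]
    constructor
    · intro h
      rw [h]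
      simp
    · intro h
      simp at h
      linarith
  rw [h, measure_preimage_add_right]
  apply Measure.addHaar_submodule
  intro ht
  have : w ∈ (ℝ ∙ w)ᗮ := by
    rw [ht]
    exact Submodule.mem_top
  rw [Submodule.mem_orthogonal_singleton_iff_inner_left, hww] at this
  exact one_ne_zero this

theorem fe_mono {U : Finset (E n)} {c : E n → ℝ} {w : E n} {ε ε' : ℝ} (h : ε ≤ ε') :
    Fe U c w ε' ⊆ Fe U c w ε := by
  rintro x ⟨h1, h2, h3⟩
  exact ⟨h1, h2, fun w' hw' hne => (h3 w' hw' hne).trans (by linarith)⟩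

theorem fe_sub {U : Finset (E n)} {c : E n → ℝ} {w : E n} {ε : ℝ} :
    Fe U c w ε ⊆ Fc U c w := fun _ hx => ⟨hx.1, hx.2.1⟩

/-- opposite faces of a full polyhedron are different -/
theorem opp {U : Finset (E n)} {c : E n → ℝ} (hU : Un U) (hF : Full (Pl U c)) {w : E n}
    (hw : w ∈ U) (hw' : -w ∈ U) : c (-w) ≠ - c w := by
  intro h
  obtain ⟨x, hx⟩ := hF
  rw [mem_interior_iff_mem_nhds, Metric.mem_nhds_iff] at hx
  obtain ⟨r, hr, hb⟩ := hx
  have hx0 : x ∈ Pl U c := hb (mem_ball_self hr)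
  have h1 := hx0 w hw
  have h2 := hx0 (-w) hw'
  rw [inner_neg_right, h] at h2
  have hm : x + (r / 2) • w ∈ Pl U c := by
    apply hb
    rw [mem_ball, dist_eq_norm, add_sub_cancel_left, norm_smul, hU w hw, mul_one,
      Real.norm_eq_abs, abs_of_pos (by linarith)]
    linarith
  have h3 := hm w hw
  rw [inner_add_left, inner_smul_left, real_inner_self_eq_norm_sq, hU w hw] at h3
  simp at h3
  linarith

theorem ar_fe (h1 : ARStmt) (h2 : ANStmt) {U : Finset (E n)} {c : E n → ℝ} (hU : Un U)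
    (hB : Bd U) (hF : Full (Pl U c)) {w : E n} (hw : w ∈ U) (e : ℝ) (he : 0 < e) :
    ∀ᶠ ε : ℝ in 𝓝[>] 0, fa U c w - e ≤ ar w (Fe U c w ε) := by
  classical
  have hw1 := hU w hw
  set S : ℕ → Set (E n) := fun j => Pr w (Fe U c w (1 / ((j : ℝ) + 1))) with hS
  have hSm : Monotone S := by
    intro i j hij
    apply pr_mono
    apply fe_mono
    apply one_div_le_one_div_of_le (by positivity)
    have : (i : ℝ) ≤ j := by exact_mod_cast hij
    linarith
  have hfc : IsCompact (Fc U c w) := by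
    apply (pl_compact hB c).of_isClosed_subset _ (fun x hx => hx.1)
    have : Fc U c w = Pl U c ∩ {x | inner ℝ x w = c w} := by
      ext x
      simp [Fc]
    rw [this]
    exact (pl_closed U c).inter (isClosed_eq (cont_inner w) continuous_const)
  have hfin : volume (Pr w (Fc U c w)) ≠ ⊤ := (pr_compact w hfc).measure_ne_top
  have hle : volume (⋃ j, S j) ≤ volume (Pr w (Fc U c w)) := by
    apply measure_mono
    apply iUnion_subset
    intro j
    exact pr_mono w fe_sub
  -- the rest of the face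
  set N : E n → Set (E n) := fun w' => {x | x ∈ Fc U c w ∧ inner ℝ x w' = c w'} with hN
  have hNull : ∀ w' ∈ U.erase w, volume (Pr w (N w')) = 0 := by
    intro w' hw'
    obtain ⟨hne, hw'U⟩ := Finset.mem_erase.mp hw'
    by_cases hop : w' = -w
    · have : N w' = ∅ := by
        apply eq_empty_of_forall_notMem
        rintro x ⟨⟨hx1, hx2⟩, hx3⟩
        subst hop
        rw [inner_neg_right, hx2] at hx3
        exact opp hU hF hw hw'U hx3.symm
      rw [this]
      have : Pr w (∅ : Set (E n)) = ∅ := by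
        apply eq_empty_of_forall_notMem
        rintro y ⟨x, hx, _⟩
        exact hx
      rw [this, measure_empty]
    · have h0 : ar w (N w') = 0 := (h2 n w hw1).1 (N w') w' (c w) (c w') (hU w' hw'U) hne hop
        (fun x hx => ⟨hx.1.2, hx.2⟩)
      have hc : IsCompact (N w') := by
        apply hfc.of_isClosed_subset _ (fun x hx => hx.1)
        have : N w' = Fc U c w ∩ {x | inner ℝ x w' = c w'} := by
          ext x
          simp [N]
        rw [this]
        exact hfc.isClosed.inter (isClosed_eq (cont_inner w') continuous_const)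
      have hf : volume (Pr w (N w')) ≠ ⊤ := (pr_compact w hc).measure_ne_top
      unfold ar vl at h0
      rw [ENNReal.toReal_eq_zero_iff] at h0
      exact h0.resolve_right hf
  have hcov : Pr w (Fc U c w) ⊆ (⋃ j, S j) ∪ ⋃ w' ∈ U.erase w, Pr w (N w') := by
    rintro y ⟨x, hx, s, hs, rfl⟩
    by_cases hex : ∃ w' ∈ U.erase w, inner ℝ x w' = c w'
    · obtain ⟨w', hw', hx'⟩ := hex
      right
      simp only [mem_iUnion]
      exact ⟨w', hw', x, ⟨hx, hx'⟩, s, hs, rfl⟩
    · left
      push Not at hex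
      have hlt : ∀ w' ∈ U.erase w, 0 < c w' - inner ℝ x w' := by
        intro w' hw'
        have h3 := hx.1 w' (Finset.mem_of_mem_erase hw')
        have h4 := hex w' hw'
        exact sub_pos.mpr (lt_of_le_of_ne h3 h4)
      have hev : ∀ᶠ j : ℕ in atTop, ∀ w' ∈ U.erase w, 1 / ((j : ℝ) + 1) < c w' - inner ℝ x w' := by
        rw [Filter.eventually_all_finset]
        intro w' hw'
        exact (tendsto_one_div_add_atTop_nhds_zero_nat).eventually_lt_const (hlt w' hw')
      obtain ⟨j, hj⟩ := hev.exists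
      simp only [mem_iUnion]
      refine ⟨j, x, ⟨hx.1, hx.2, fun w' hw' hne => ?_⟩, s, hs, rfl⟩
      have := hj w' (Finset.mem_erase.mpr ⟨hne, hw'⟩)
      linarith
  have hge : volume (Pr w (Fc U c w)) ≤ volume (⋃ j, S j) := by
    calc volume (Pr w (Fc U c w)) ≤ volume ((⋃ j, S j) ∪ ⋃ w' ∈ U.erase w, Pr w (N w')) :=
          measure_mono hcov
      _ ≤ volume (⋃ j, S j) + volume (⋃ w' ∈ U.erase w, Pr w (N w')) := measure_union_le _ _
      _ = volume (⋃ j, S j) := by
          have : volume (⋃ w' ∈ U.erase w, Pr w (N w')) = 0 := by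
            rw [← nonpos_iff_eq_zero]
            calc volume (⋃ w' ∈ U.erase w, Pr w (N w'))
                ≤ ∑ w' ∈ U.erase w, volume (Pr w (N w')) := measure_biUnion_finset_le _ _
              _ = 0 := Finset.sum_eq_zero hNull
          rw [this, add_zero]
  have heq : volume (⋃ j, S j) = volume (Pr w (Fc U c w)) := le_antisymm hle hge
  have ht : Tendsto (fun j => (volume (S j)).toReal) atTop (𝓝 (fa U c w)) := by
    have := tendsto_measure_iUnion_atTop (μ := (volume : Measure (E n))) hSm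
    rw [heq] at this
    exact (ENNReal.tendsto_toReal hfin).comp this
  have hev := ht.eventually (lt_mem_nhds (show fa U c w - e < fa U c w by linarith))
  obtain ⟨j, hj⟩ := hev.exists
  have hpos : (0 : ℝ) < 1 / ((j : ℝ) + 1) := by positivity
  filter_upwards [Ioo_mem_nhdsGT hpos] with ε hε
  refine le_trans hj.le ?_
  exact (h1 n w hw1).2.2.1 _ _ (fe_compact hB c w ε) (fe_mono hε.2.le)

/-- Common lemma of DER and OUT. -/
theorem lb (h1 : ARStmt) (h2 : ANStmt) (U : Finset (E n)) (c : E n → ℝ) (hU : Un U) (hB : Bd U)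
    (hF : Full (Pl U c)) (q : E n → E n) (hq : ∀ w ∈ U, 0 ≤ inner ℝ (q w) w) (e : ℝ)
    (he : 0 < e) :
    ∃ ε : ℝ, 0 < ε ∧ ∀ᶠ t : ℝ in 𝓝[>] 0, ∀ T : Set (E n), volume T ≠ ⊤ → Pl U c ⊆ T →
      (∀ w ∈ U, ∀ x ∈ Fe U c w ε, ∀ s ∈ Icc (0:ℝ) t, x + s • q w ∈ T) →
      vl (Pl U c) + t * (∑ w ∈ U, fa U c w * inner ℝ (q w) w - e) ≤ vl T := by
  classical
  set Sq := ∑ w ∈ U, inner ℝ (q w) w with hSq
  have hSq0 : 0 ≤ Sq := Finset.sum_nonneg hq
  set e1 := e / (1 + Sq) with he1
  have he1p : 0 < e1 := by positivity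
  obtain ⟨ε, hεw, hε⟩ : ∃ ε : ℝ, (∀ w ∈ U, fa U c w - e1 ≤ ar w (Fe U c w ε)) ∧ 0 < ε := by
    have hev : ∀ᶠ ε : ℝ in 𝓝[>] 0, ∀ w ∈ U, fa U c w - e1 ≤ ar w (Fe U c w ε) := by
      rw [Filter.eventually_all_finset]
      intro w hw
      exact ar_fe h1 h2 hU hB hF hw e1 he1p
    exact (hev.and self_mem_nhdsWithin).exists
  refine ⟨ε, hε, ?_⟩
  set Bq := ∑ w ∈ U, ‖q w‖ with hBq
  have hBq0 : 0 ≤ Bq := Finset.sum_nonneg fun w _ => norm_nonneg _
  filter_upwards [Ioo_mem_nhdsGT (show (0:ℝ) < ε / (1 + Bq) by positivity)] with t ht T hT hPT hQT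
  obtain ⟨ht0, ht1⟩ := ht
  have htB : t * Bq < ε := by
    rw [lt_div_iff₀ (by positivity)] at ht1
    nlinarith
  set Q : E n → Set (E n) := fun w => {y | ∃ x ∈ Fe U c w ε, ∃ s ∈ Icc (0 : ℝ) t, y = x + s • q w}
    with hQ
  set H : E n → Set (E n) := fun w => {y | inner ℝ y w = c w} with hH
  have hQc : ∀ w, IsCompact (Q w) := by
    intro w
    have : Q w = (fun p : E n × ℝ => p.1 + p.2 • q w) '' (Fe U c w ε ×ˢ Icc (0:ℝ) t) := by
      ext y
      constructor
      · rintro ⟨x, hx, s, hs, rfl⟩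
        exact ⟨(x, s), ⟨hx, hs⟩, rfl⟩
      · rintro ⟨⟨x, s⟩, ⟨hx, hs⟩, rfl⟩
        exact ⟨x, hx, s, hs, rfl⟩
    rw [this]
    apply ((fe_compact hB c w ε).prod isCompact_Icc).image
    fun_prop
  have hHm : ∀ w, MeasurableSet (H w) := fun w =>
    (isClosed_eq (cont_inner w) continuous_const).measurableSet
  have hQm : ∀ w, MeasurableSet (Q w) := fun w => (hQc w).isClosed.measurableSet
  have hDv : ∀ w ∈ U, volume (Q w \ H w) = volume (Q w) := fun w hw =>
    measure_sdiff_null (hyp_null w (hU w hw) (c w))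
  have hin : ∀ w ∈ U, ∀ y ∈ Q w, c w ≤ inner ℝ y w := by
    rintro w hw y ⟨x, hx, s, hs, rfl⟩
    rw [inner_add_left, inner_smul_left, hx.2.1]
    have := mul_nonneg hs.1 (hq w hw)
    simp only [conj_trivial]
    linarith
  have hout : ∀ w ∈ U, ∀ w' ∈ U, w ≠ w' → ∀ y ∈ Q w, inner ℝ y w' < c w' := by
    rintro w hw w' hw' hne y ⟨x, hx, s, hs, rfl⟩
    rw [inner_add_left, inner_smul_left]
    have h3 := hx.2.2 w' hw' hne.symm
    have h4 : inner ℝ (q w) w' ≤ ‖q w‖ := by
      have := real_inner_le_norm (q w) w'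
      rw [hU w' hw', mul_one] at this
      exact this
    have h5 : ‖q w‖ ≤ Bq := Finset.single_le_sum (f := fun w => ‖q w‖)
      (fun w _ => norm_nonneg _) hw
    have h6 : s * inner ℝ (q w) w' ≤ t * Bq := by
      calc s * inner ℝ (q w) w' ≤ s * Bq := mul_le_mul_of_nonneg_left (h4.trans h5) hs.1
        _ ≤ t * Bq := mul_le_mul_of_nonneg_right hs.2 hBq0
    simp only [conj_trivial]
    linarith
  have hdisj : (U : Set (E n)).PairwiseDisjoint fun w => Q w \ H w := by
    intro w hw w' hw' hne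
    apply Set.disjoint_left.mpr
    rintro y ⟨hy, _⟩ ⟨hy', _⟩
    have := hout w hw w' hw' hne y hy
    have := hin w' hw' y hy'
    linarith
  have hdisj2 : Disjoint (Pl U c) (⋃ w ∈ U, Q w \ H w) := by
    apply Set.disjoint_left.mpr
    intro y hy hy'
    simp only [mem_iUnion] at hy'
    obtain ⟨w, hw, hyQ, hyH⟩ := hy'
    have h3 := hin w hw y hyQ
    have h4 := hy w hw
    exact hyH (le_antisymm h4 h3)
  have hvol : volume (Pl U c) + ∑ w ∈ U, volume (Q w) ≤ volume T := by
    calc volume (Pl U c) + ∑ w ∈ U, volume (Q w)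
        = volume (Pl U c) + volume (⋃ w ∈ U, Q w \ H w) := by
          rw [measure_biUnion_finset hdisj (fun w _ => (hQm w).diff (hHm w))]
          rw [Finset.sum_congr rfl hDv]
      _ = volume (Pl U c ∪ ⋃ w ∈ U, Q w \ H w) := by
          rw [measure_union hdisj2 (Finset.measurableSet_biUnion _
            fun w _ => (hQm w).diff (hHm w))]
      _ ≤ volume T := by
          apply measure_mono
          apply union_subset hPT
          apply iUnion₂_subset
          rintro w hw y ⟨⟨x, hx, s, hs, rfl⟩, _⟩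
          exact hQT w hw x hx s hs
  have hreal : vl (Pl U c) + ∑ w ∈ U, vl (Q w) ≤ vl T := by
    unfold vl
    have hP : volume (Pl U c) ≠ ⊤ := (pl_compact hB c).measure_ne_top
    have hQf : ∀ w ∈ U, volume (Q w) ≠ ⊤ := fun w _ => (hQc w).measure_ne_top
    rw [← ENNReal.toReal_sum hQf, ← ENNReal.toReal_add hP
      (ENNReal.sum_ne_top.mpr hQf)]
    exact ENNReal.toReal_mono hT hvol
  have hQv : ∀ w ∈ U, t * inner ℝ (q w) w * (fa U c w - e1) ≤ vl (Q w) := by
    intro w hw
    have := (h1 n w (hU w hw)).2.1 (Fe U c w ε) (fe_compact hB c w ε) (c w)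
      (fun x hx => hx.2.1) (q w) (hq w hw) t ht0.le
    rw [show vl (Q w) = t * inner ℝ (q w) w * ar w (Fe U c w ε) from this]
    exact mul_le_mul_of_nonneg_left (hεw w hw) (mul_nonneg ht0.le (hq w hw))
  have hsum := Finset.sum_le_sum hQv
  have hcalc : ∑ w ∈ U, t * inner ℝ (q w) w * (fa U c w - e1) =
      t * (∑ w ∈ U, fa U c w * inner ℝ (q w) w) - t * (e1 * Sq) := by
    rw [hSq, Finset.mul_sum, Finset.mul_sum, Finset.mul_sum, ← Finset.sum_sub_distrib]
    refine Finset.sum_congr rfl fun w _ => ?_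
    ring
  have hee : e1 * Sq ≤ e := by
    rw [he1, div_mul_eq_mul_div, div_le_iff₀ (by positivity)]
    nlinarith
  have : t * (e1 * Sq) ≤ t * e := mul_le_mul_of_nonneg_left hee ht0.le
  rw [hcalc] at hsum
  rw [mul_sub]
  linarith

end PV3.H10
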