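import Pool.Agent.Helper10_PV3.Lb

/-!
# Squad PV3, module OUT: lower bound for the volume of a Minkowski sum
-/

set_option autoImplicit false

open MeasureTheory Metric Set Filter Topology Pointwise

namespace PV3.H10

open PV PV3

theorem out (h1 : ARStmt) (h2 : ANStmt) : OUTStmt := by
  intro n U c K hU hB hF hK hKc h0 e he
  have hmax : ∀ w : E n, ∃ q ∈ K, ∀ y ∈ K, inner ℝ y w ≤ inner ℝ q w := fun w =>
    hK.exists_isMaxOn ⟨0, h0⟩ (cont_inner w).continuousOn
  choose q hqK hqm using hmax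
  have hhs : ∀ w, hs K w = inner ℝ (q w) w := by
    intro w
    unfold hs
    apply IsGreatest.csSup_eq
    refine ⟨⟨q w, hqK w, rfl⟩, ?_⟩
    rintro _ ⟨y, hy, rfl⟩
    exact hqm w y hy
  have hq0 : ∀ w ∈ U, 0 ≤ inner ℝ (q w) w := by
    intro w _
    have := hqm w 0 h0
    rw [inner_zero_left] at this
    exact this
  obtain ⟨ε, hε, hev⟩ := lb h1 h2 U c hU hB hF q hq0 e he
  filter_upwards [hev, self_mem_nhdsWithin] with t ht htp
  have htp' : 0 < t := htp
  have hcomp : IsCompact (Pl U c + t • K) := (pl_compact hB c).add (hK.smul t)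
  have hsK : ∀ s ∈ Icc (0:ℝ) t, ∀ x ∈ K, s • x ∈ t • K := by
    intro s hs x hx
    refine ⟨(s / t) • x, ?_, ?_⟩
    · have h3 : 0 ≤ s / t := div_nonneg hs.1 htp'.le
      have h4 : s / t ≤ 1 := (div_le_one htp').mpr hs.2
      have := hKc h0 hx (show 0 ≤ 1 - s / t by linarith) h3 (by ring)
      rwa [smul_zero, zero_add] at this
    · change t • (s / t) • x = s • x
      rw [smul_smul, mul_div_cancel₀ _ htp'.ne']
  have := ht (Pl U c + t • K) hcomp.measure_ne_top ?_ ?_
  · simp only [hhs]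
    exact this
  · intro x hx
    refine ⟨x, hx, 0, ?_, add_zero x⟩
    have := hsK 0 ⟨le_rfl, htp'.le⟩ 0 h0
    rwa [zero_smul] at this
  · intro w _ x hx s hs
    exact ⟨x, hx.1, s • q w, hsK s hs _ (hqK w), rfl⟩

end PV3.H10
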